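import Pool.Agent.Helper856.Pair.AsmF

open SimpleGraph Pool.Agent.Helper856.Lcw Pool.Agent.Helper856.PairStmt

namespace Pool.Agent.Results.MP_849b2e_co.Classification

/-- Sanity: a nonempty finite graph has some linear construction, so the minimum defining
`linearCliqueWidth` is attained. -/
theorem attained {V : Type} [Finite V] [Nonempty V] (G : SimpleGraph V) :
    LcwLE G (linearCliqueWidth G) :=
  Nat.sInf_mem (exists_lcwLE G)

/-- The bounded pairs, one arrangement. -/
def Listed {W₁ W₂ : Type} (A : SimpleGraph W₁) (B : SimpleGraph W₂) : Prop :=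
  A.IsIndContained P3 ∨
  (A.IsIndContained P4 ∧ IsThreshold B) ∨
  (A = ⊤ ∧ B = ⊥) ∨
  (A.IsIndContained Paw ∧ (B = ⊥ ∨ B.IsIndContained K13_3P1 ∨ B.IsIndContained K13_P2 ∨
    B.IsIndContained P1_S113 ∨ B.IsIndContained S122)) ∨
  (A.IsIndContained Diamond ∧ (B.IsIndContained F3P1_P2 ∨ B.IsIndContained P1_P5 ∨
    B.IsIndContained P1_P2_P3)) ∨
  (A.IsIndContained K3_P1 ∧ B.IsIndContained Claw) ∨
  (A.IsIndContained F2P1_P3ᶜ ∧ B.IsIndContained F2P1_P3)

/-- The full classification: for all finite graphs `A`, `B` the `(A, B)`-free graphs have bounded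
linear clique-width if and only if, after possibly swapping and/or complementing both graphs, the
pair is listed. -/
theorem result (W₁ W₂ : Type) [Finite W₁] [Finite W₂] (A : SimpleGraph W₁) (B : SimpleGraph W₂) :
    Bounded A B ↔ (Listed A B ∨ Listed B A ∨ Listed Aᶜ Bᶜ ∨ Listed Bᶜ Aᶜ) := by
  classical
  obtain ⟨m, A', ⟨iA⟩⟩ := Pool.Agent.Helper856.Cw.AsmT.exists_fin A
  obtain ⟨n, B', ⟨iB⟩⟩ := Pool.Agent.Helper856.Cw.AsmT.exists_fin B
  obtain ⟨iA2⟩ := Pool.Agent.Helper856.Cw.AsmT.iso_compl iA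
  obtain ⟨iB2⟩ := Pool.Agent.Helper856.Cw.AsmT.iso_compl iB
  have t1 : ∀ {X Y X' Y' : Type} {A : SimpleGraph X} {B : SimpleGraph Y} {A' : SimpleGraph X'}
      {B' : SimpleGraph Y'}, (A ≃g A') → (B ≃g B') → (Listed A B ↔ Listed A' B') := by
    intro X Y X' Y' A B A' B' i j
    have hthr : IsThreshold B ↔ IsThreshold B' := Pool.Agent.Helper856.Cw.AsmT.iso_thr j
    unfold Listed
    rw [Pool.Agent.Helper856.Cw.AsmT.iso_top i, Pool.Agent.Helper856.Cw.AsmT.iso_bot j, hthr]
    simp only [Pool.Agent.Helper856.Cw.AsmT.iso_left i, Pool.Agent.Helper856.Cw.AsmT.iso_left j]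
  have t3 : Bounded A B ↔ Bounded A' B' := by
    unfold Bounded
    refine exists_congr (fun c => forall_congr' (fun V => forall_congr' (fun _ =>
      forall_congr' (fun G => ?_))))
    rw [Pool.Agent.Helper856.Cw.AsmT.iso_left iA, Pool.Agent.Helper856.Cw.AsmT.iso_left iB]
  rw [t1 iA iB, t1 iB iA, t1 iA2 iB2, t1 iB2 iA2, t3, Pool.Agent.Helper856.Cw.AsmT.bounded_iff_BG]
  have u1 : ∀ {p q : ℕ} {X : SimpleGraph (Fin p)} {Y : SimpleGraph (Fin q)},
      Pool.Agent.Helper856.Cw.Good X Y ↔ Listed X Y := fun {p q X Y} => Iff.rfl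
  have u2 : ∀ {p q : ℕ} {X : SimpleGraph (Fin p)} {Y : SimpleGraph (Fin q)},
      Listed X Y → Pool.Agent.Helper856.Cw.AsmN.BG X Y := fun h =>
    Pool.Agent.Helper856.Cw.AsmF.good_BG (u1.2 h)
  constructor
  · intro hB
    rcases Pool.Agent.Helper856.Cw.AsmN.cond_of_BG hB with h | h | h | h
    · exact Or.inl (u1.1 h)
    · exact Or.inr (Or.inl (u1.1 h))
    · exact Or.inr (Or.inr (Or.inl (u1.1 h)))
    · exact Or.inr (Or.inr (Or.inr (u1.1 h)))
  · rintro (h | h | h | h)
    · exact u2 h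
    · exact (u2 h).symm
    · have := (u2 h).compl
      rwa [compl_compl, compl_compl] at this
    · have := (u2 h).symm.compl
      rwa [compl_compl, compl_compl] at this

end Pool.Agent.Results.MP_849b2e_co.Classification
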